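import Pool.Agent.W2helper35.TM.Ends
import Pool.Agent.H26R2.Bass.Main

/-!
# The transfer, and the element criterion for the Bass conjecture
-/

set_option autoImplicit false

namespace Pool.Agent.W2helper35.TM

open Filter Topology Set
open Pool.Agent.H26R2.Bass (Good)
open Pool.Agent.H26R2.IdemLI (AlmostDiv)

universe u v

/-- a homomorphism from a subgroup of finite index to `ℝ` which does not vanish at a power of a
central element gives a homomorphism from the group which does not vanish at this element -/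
theorem transfer_hom {C : Type u} [Group C] (h : C) (hc : ∀ x, x * h = h * x) (K : Subgroup C)
    [K.FiniteIndex] (φ : K →* Multiplicative ℝ) (m : ℕ) (hm : h ^ m ∈ K)
    (hφ : φ ⟨h ^ m, hm⟩ ≠ 1) : ∃ φ' : C →* Multiplicative ℝ, φ' h ≠ 1 := by
  have key : ∀ (k : ℕ) (g₀ : C), g₀⁻¹ * h ^ k * g₀ ∈ K → g₀⁻¹ * h ^ k * g₀ = h ^ k := by
    intro k g₀ _
    have h1 : g₀ * h ^ k = h ^ k * g₀ := ((show Commute g₀ h from hc g₀).pow_right k).eq
    rw [mul_assoc, ← h1, inv_mul_cancel_left]
  refine ⟨MonoidHom.transfer φ, ?_⟩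
  rw [MonoidHom.transfer_eq_pow φ h key]
  intro h1
  apply hφ
  have hi : K.index ≠ 0 := Subgroup.FiniteIndex.index_ne_zero
  have h2 : φ ⟨h ^ m, hm⟩ ^ K.index = 1 := by
    rw [← map_pow]
    have h3 : (⟨h ^ m, hm⟩ : K) ^ K.index =
        ⟨h ^ K.index, MonoidHom.transfer_eq_pow_aux h key⟩ ^ m := by
      apply Subtype.ext
      rw [Subgroup.coe_pow, Subgroup.coe_pow]
      show (h ^ m) ^ K.index = (h ^ K.index) ^ m
      rw [← pow_mul, ← pow_mul, mul_comm]
    rw [h3, map_pow, h1, one_pow]
  have h4 : K.index • Multiplicative.toAdd (φ ⟨h ^ m, hm⟩) = 0 := by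
    rw [← toAdd_pow, h2]
    rfl
  rcases smul_eq_zero.1 h4 with h5 | h5
  · exact absurd h5 hi
  · exact Multiplicative.toAdd.injective h5

/-- additive functions which do not vanish at a real number -/
lemma exists_lin {t : ℝ} (ht : t ≠ 0) (K : Type v) [Field K] [CharZero K] :
    ∃ f : ℝ →+ K, f t ≠ 0 := by
  have h1 : ¬ ∀ φ : Module.Dual ℚ ℝ, φ t = 0 := fun h =>
    ht ((Module.forall_dual_apply_eq_zero_iff ℚ t).1 h)
  push Not at h1
  obtain ⟨g, hg⟩ := h1
  refine ⟨(Rat.castHom K).toAddMonoidHom.comp g.toAddMonoidHom, ?_⟩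
  show ((g t : ℚ) : K) ≠ 0
  exact Rat.cast_ne_zero.2 hg

/-- elements at which some real valued additive function on the centralizer does not vanish -/
theorem good_of_real {H : Type u} [Group H] (R : Type v) [CommRing R] [IsDomain R] [CharZero R]
    (h : H) (φ : Subgroup.centralizer ({h} : Set H) →* Multiplicative ℝ)
    (hφ : φ ⟨h, Subgroup.mem_centralizer_singleton_iff.2 rfl⟩ ≠ 1) : Good R h := by
  haveI : CharZero (FractionRing R) :=
    charZero_of_injective_algebraMap (IsFractionRing.injective R (FractionRing R))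
  obtain ⟨f, hf⟩ := exists_lin (t := Multiplicative.toAdd
    (φ ⟨h, Subgroup.mem_centralizer_singleton_iff.2 rfl⟩)) (fun h0 => hφ
      (Multiplicative.toAdd.injective h0)) (FractionRing R)
  left
  refine ⟨(AddMonoidHom.toMultiplicative f).comp φ,
    ⟨h, Subgroup.mem_centralizer_singleton_iff.2 rfl⟩, rfl, ?_⟩
  intro h1
  exact hf (Multiplicative.ofAdd.injective h1)

/-- the centre of the centralizer -/
lemma cent_comm {H : Type u} [Group H] (h : H) (x : Subgroup.centralizer ({h} : Set H)) :
    x * ⟨h, Subgroup.mem_centralizer_singleton_iff.2 rfl⟩ =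
      ⟨h, Subgroup.mem_centralizer_singleton_iff.2 rfl⟩ * x := by
  apply Subtype.ext
  exact (Subgroup.mem_centralizer_singleton_iff.1 x.2)

end Pool.Agent.W2helper35.TM
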