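import Pool.Agent.W2helper35.TM.Hold

/-!
# Commuting homeomorphisms near an end of the line
-/

set_option autoImplicit false

namespace Pool.Agent.W2helper35.TM

open Filter Topology Set

universe u

lemma mul_ap (f g : ℝ ≃o ℝ) (x : ℝ) : (f * g) x = f (g x) := rfl

lemma one_ap (x : ℝ) : (1 : ℝ ≃o ℝ) x = x := rfl

lemma inv_ap (f : ℝ ≃o ℝ) (x : ℝ) : f⁻¹ (f x) = x := f.symm_apply_apply x

lemma ap_inv (f : ℝ ≃o ℝ) (x : ℝ) : f (f⁻¹ x) = x := f.apply_symm_apply x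

/-- `S` is the set of all points to the right of the end `F` of the line: of the end `-∞` (then `S`
is the line), or of the end given by the right side of a point `a` (then `S = (a, ∞)`) -/
structure IsEnd (S : Set ℝ) (F : Filter ℝ) : Prop where
  up : ∀ x ∈ S, ∀ y, x ≤ y → y ∈ S
  nomin : ∀ x ∈ S, ∃ y ∈ S, y < x
  ne : S.Nonempty
  ev : ∀ P : ℝ → Prop, (∀ᶠ z in F, P z) ↔ ∃ b ∈ S, ∀ z ∈ S, z < b → P z

lemma isEnd_bot : IsEnd univ atBot where
  up := fun _ _ _ _ => mem_univ _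
  nomin := fun x _ => ⟨x - 1, mem_univ _, by linarith⟩
  ne := ⟨0, mem_univ _⟩
  ev := fun P => by
    rw [eventually_atBot]
    constructor
    · rintro ⟨b, hb⟩
      exact ⟨b, mem_univ _, fun z _ hz => hb z hz.le⟩
    · rintro ⟨b, _, hb⟩
      exact ⟨b - 1, fun z hz => hb z (mem_univ _) (by linarith)⟩

lemma isEnd_right (a : ℝ) : IsEnd (Ioi a) (𝓝[>] a) where
  up := fun x hx y hy => lt_of_lt_of_le hx hy
  nomin := fun x hx => ⟨(a + x) / 2, by
    have : a < x := hx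
    show a < (a + x) / 2
    linarith, by
    have : a < x := hx
    linarith⟩
  ne := ⟨a + 1, by show a < a + 1; linarith⟩
  ev := fun P => by
    rw [eventually_iff, mem_nhdsGT_iff_exists_Ioo_subset]
    constructor
    · rintro ⟨b, hb, h⟩
      exact ⟨b, hb, fun z hz hzb => h ⟨hz, hzb⟩⟩
    · rintro ⟨b, hb, h⟩
      exact ⟨b, hb, fun z hz => h z hz.1 hz.2⟩

namespace IsEnd

variable {S : Set ℝ} {F : Filter ℝ} (E : IsEnd S F)

include E

lemma lt_min {x y : ℝ} (hx : x ∈ S) (hy : y ∈ S) : ∃ z ∈ S, z < x ∧ z < y := by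
  rcases le_total x y with h | h
  · obtain ⟨z, hz, hzx⟩ := E.nomin x hx
    exact ⟨z, hz, hzx, lt_of_lt_of_le hzx h⟩
  · obtain ⟨z, hz, hzy⟩ := E.nomin y hy
    exact ⟨z, hz, lt_of_lt_of_le hzy h, hzy⟩

lemma sign {f : ℝ ≃o ℝ} (h : ∀ᶠ z in F, f z ≠ z) :
    (∀ᶠ z in F, z < f z) ∨ (∀ᶠ z in F, f z < z) := by
  rw [E.ev] at h
  obtain ⟨b, hb, h⟩ := h
  have hconn : IsPreconnected (S ∩ Iio b) := by
    apply Set.OrdConnected.isPreconnected
    refine ⟨?_⟩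
    intro x hx y hy z hz
    exact ⟨E.up x hx.1 z hz.1, lt_of_le_of_lt hz.2 hy.2⟩
  have hcont : Continuous (fun z => f z - z) := f.continuous.sub continuous_id
  have hno : ∀ x ∈ S ∩ Iio b, ∀ y ∈ S ∩ Iio b, f x < x → y < f y → False := by
    intro x hx y hy h1 h2
    have h3 := hconn.intermediate_value hx hy hcont.continuousOn
    have h4 : (0 : ℝ) ∈ Icc (f x - x) (f y - y) := ⟨by linarith, by linarith⟩
    obtain ⟨w, hw, hw0⟩ := h3 h4
    exact h w hw.1 hw.2 (by linarith [show f w - w = 0 from hw0])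
  obtain ⟨z0, hz0, hz0b⟩ := E.nomin b hb
  rcases lt_or_gt_of_ne (h z0 hz0 hz0b) with h1 | h1
  · right
    rw [E.ev]
    refine ⟨b, hb, fun z hz hzb => ?_⟩
    rcases lt_or_gt_of_ne (h z hz hzb) with h2 | h2
    · exact h2
    · exact absurd (hno z0 ⟨hz0, hz0b⟩ z ⟨hz, hzb⟩ h1 h2) not_false
  · left
    rw [E.ev]
    refine ⟨b, hb, fun z hz hzb => ?_⟩
    rcases lt_or_gt_of_ne (h z hz hzb) with h2 | h2
    · exact absurd (hno z ⟨hz, hzb⟩ z0 ⟨hz0, hz0b⟩ h2 h1) not_false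
    · exact h2

/-- the powers of an increasing contraction bring every point close to the end -/
lemma reach {c : ℝ ≃o ℝ} {b : ℝ}
    (hc : ∀ z ∈ S, z < b → z < c z) {y w : ℝ} (hyb : y < b) (hw : w ∈ S) :
    ∃ n : ℕ, (c⁻¹ ^ n : ℝ ≃o ℝ) y < w := by
  by_contra hcon
  push Not at hcon
  set T : Set ℝ := range fun n : ℕ => (c⁻¹ ^ n : ℝ ≃o ℝ) y with hT
  have hbd : BddBelow T := ⟨w, by rintro _ ⟨n, rfl⟩; exact hcon n⟩
  have hne : T.Nonempty := ⟨_, 0, rfl⟩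
  have h1 : w ≤ sInf T := le_csInf hne (by rintro _ ⟨n, rfl⟩; exact hcon n)
  have h2 : sInf T ≤ y := csInf_le hbd ⟨0, rfl⟩
  have h3 : sInf T < c (sInf T) := hc _ (E.up w hw _ h1) (lt_of_le_of_lt h2 hyb)
  obtain ⟨t, ⟨n, rfl⟩, ht⟩ := exists_lt_of_csInf_lt hne h3
  have h4 : (c⁻¹ ^ (n + 1) : ℝ ≃o ℝ) y < sInf T := by
    rw [pow_succ', mul_ap]
    have h5 := (c⁻¹ : ℝ ≃o ℝ).lt_iff_lt.2 ht
    rwa [inv_ap] at h5
  exact absurd (csInf_le hbd ⟨n + 1, rfl⟩) (not_le.2 h4)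

/-- a homeomorphism commuting with `c` is bounded by a power of `c` near the end -/
lemma arch {c x : ℝ ≃o ℝ} (hS' : ∀ z, z ∈ S → c⁻¹ z ∈ S)
    (hx' : ∀ z, z ∈ S → x⁻¹ z ∈ S) (hxc : x * c = c * x)
    (hc : ∀ᶠ z in F, z < c z) : ∃ n : ℕ, ∀ᶠ z in F, x z ≤ (c ^ n : ℝ ≃o ℝ) z := by
  rw [E.ev] at hc
  obtain ⟨b, hb, hc⟩ := hc
  obtain ⟨z0, hz0, hz0b, hz0x⟩ := E.lt_min hb (hx' b hb)
  have hxz0 : x z0 < b := by
    have := x.lt_iff_lt.2 hz0x
    rwa [ap_inv] at this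
  obtain ⟨n, hn⟩ := E.reach hc hxz0 (hS' z0 hz0)
  have hcom : Commute x c := hxc
  have hcom' : ∀ k : ℕ, x * c⁻¹ ^ k = c⁻¹ ^ k * x := fun k => ((hcom.inv_right).pow_right k).eq
  refine ⟨n, (E.ev _).2 ⟨z0, hz0, fun z hz hzz0 => ?_⟩⟩
  -- the fundamental domain which contains `z`
  have hex : ∃ k : ℕ, (c⁻¹ ^ k : ℝ ≃o ℝ) z0 < z := E.reach hc hz0b hz
  have hk := Nat.find_spec hex
  have hk0 : Nat.find hex ≠ 0 := by
    intro h0
    rw [h0, pow_zero, one_ap] at hk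
    exact absurd hk (not_lt.2 hzz0.le)
  obtain ⟨k, hk1⟩ := Nat.exists_eq_succ_of_ne_zero hk0
  have hkm : ¬ (c⁻¹ ^ k : ℝ ≃o ℝ) z0 < z := Nat.find_min hex (by rw [hk1]; exact Nat.lt_succ_self k)
  rw [hk1] at hk
  have h1 : x z ≤ (c⁻¹ ^ k : ℝ ≃o ℝ) (x z0) := by
    have h2 := x.monotone (not_lt.1 hkm)
    have h3 : x ((c⁻¹ ^ k : ℝ ≃o ℝ) z0) = (c⁻¹ ^ k : ℝ ≃o ℝ) (x z0) := by
      rw [← mul_ap, hcom' k, mul_ap]
    rwa [h3] at h2
  have h2 : x z0 < (c ^ n : ℝ ≃o ℝ) (c⁻¹ z0) := by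
    have h3 := (c ^ n : ℝ ≃o ℝ).lt_iff_lt.2 hn
    rw [← mul_ap, inv_pow, mul_inv_cancel, one_ap] at h3
    exact h3
  have h3 : (c⁻¹ ^ k : ℝ ≃o ℝ) (x z0) ≤ (c ^ n : ℝ ≃o ℝ) z := by
    have h4 := ((c⁻¹ ^ k : ℝ ≃o ℝ).lt_iff_lt.2 h2).le
    have h5 : (c⁻¹ ^ k : ℝ ≃o ℝ) ((c ^ n : ℝ ≃o ℝ) (c⁻¹ z0)) =
        (c ^ n : ℝ ≃o ℝ) ((c⁻¹ ^ (k + 1) : ℝ ≃o ℝ) z0) := by
      rw [← mul_ap, ← mul_ap, ← mul_ap]
      congr 1
      rw [pow_succ, ← mul_assoc]
      congr 1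
      exact (((Commute.refl c).inv_left).pow_pow k n).eq
    rw [h5] at h4
    exact h4.trans ((c ^ n : ℝ ≃o ℝ).monotone hk.le)
  exact h1.trans h3

lemma neBot : F.NeBot := by
  rw [neBot_iff]
  intro h0
  have h1 : ∀ᶠ z in F, (False : Prop) := by rw [h0]; exact eventually_bot
  rw [E.ev] at h1
  obtain ⟨b, hb, h⟩ := h1
  obtain ⟨y, hy, hyb⟩ := E.nomin b hb
  exact h y hy hyb

lemma tends {f : ℝ ≃o ℝ} (h : ∀ z, z ∈ S → f z ∈ S) (h' : ∀ z, z ∈ S → f⁻¹ z ∈ S) :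
    Tendsto f F F := by
  intro P hP
  have h1 : ∀ᶠ z in F, z ∈ P := hP
  show ∀ᶠ z in F, f z ∈ P
  rw [E.ev] at h1 ⊢
  obtain ⟨b, hb, hP⟩ := h1
  refine ⟨f⁻¹ b, h' b hb, fun z hz hzb => hP _ (h z hz) ?_⟩
  have := f.lt_iff_lt.2 hzb
  rwa [ap_inv] at this

variable {C : Type u} [Group C] (ψ : C →* (ℝ ≃o ℝ)) (hS : ∀ x z, z ∈ S → ψ x z ∈ S)
  (tame : ∀ x, (∀ᶠ z in F, ψ x z = z) ∨ ∀ᶠ z in F, ψ x z ≠ z) (c : C)
  (hc : ∀ x, x * c = c * x)

include hS tame hc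

lemma hol (hpos : ∀ᶠ z in F, z < ψ c z) : Hol (fun x y : C => ∀ᶠ z in F, ψ x z ≤ ψ y z) c where
  refl := fun x => Eventually.of_forall fun z => le_rfl
  trans := fun x y z h1 h2 => by
    filter_upwards [h1, h2] with t h3 h4
    exact h3.trans h4
  total := fun x y => by
    rcases tame (y⁻¹ * x) with h | h
    · left
      filter_upwards [h] with z h1
      have h2 : ψ y (ψ (y⁻¹ * x) z) = ψ x z := by
        rw [← mul_ap, ← map_mul, mul_inv_cancel_left]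
      rw [← h2, h1]
    · rcases E.sign h with h | h
      · right
        filter_upwards [h] with z h1
        have h2 : ψ y (ψ (y⁻¹ * x) z) = ψ x z := by
          rw [← mul_ap, ← map_mul, mul_inv_cancel_left]
        rw [← h2]
        exact (ψ y).monotone h1.le
      · left
        filter_upwards [h] with z h1
        have h2 : ψ y (ψ (y⁻¹ * x) z) = ψ x z := by
          rw [← mul_ap, ← map_mul, mul_inv_cancel_left]
        rw [← h2]
        exact (ψ y).monotone h1.le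
  mulL := fun x y z h => by
    filter_upwards [h] with t h1
    rw [map_mul, map_mul]
    exact (ψ z).monotone h1
  mulR := fun x y z h => by
    have h1 : Tendsto (ψ z) F F := E.tends (hS z) (fun t ht => by
      have := hS z⁻¹ t ht
      rwa [map_inv] at this)
    filter_upwards [h1.eventually h] with t h2
    rw [map_mul, map_mul]
    exact h2
  cen := hc
  pos := by
    intro h
    haveI := E.neBot
    obtain ⟨z, h1, h2⟩ := (h.and hpos).exists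
    rw [map_one] at h1
    exact absurd h2 (not_lt.2 h1)
  arch := fun x => by
    obtain ⟨n, hn⟩ := E.arch (c := ψ c) (x := ψ x)
      (fun z hz => by have := hS c⁻¹ z hz; rwa [map_inv] at this)
      (fun z hz => by have := hS x⁻¹ z hz; rwa [map_inv] at this)
      (by rw [← map_mul, hc x, map_mul]) hpos
    refine ⟨n, ?_⟩
    filter_upwards [hn] with z h1
    rw [zpow_natCast, map_pow]
    exact h1

/-- a homomorphism to the real numbers which does not vanish at the central element `c`, if `c`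
moves the points near the end -/
theorem exists_hom (hne : ¬ ∀ᶠ z in F, ψ c z = z) :
    ∃ φ : C →* Multiplicative ℝ, φ c ≠ 1 := by
  rcases E.sign ((tame c).resolve_left hne) with h | h
  · obtain ⟨φ, hφ⟩ := (E.hol ψ hS tame c hc h).exists_hom
    refine ⟨φ, ?_⟩
    rw [hφ]
    intro h1
    exact one_ne_zero (Multiplicative.ofAdd.injective h1)
  · have h1 : ∀ᶠ z in F, z < ψ c⁻¹ z := by
      filter_upwards [h] with z h2
      have h3 := (ψ c⁻¹).lt_iff_lt.2 h2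
      rwa [← mul_ap, ← map_mul, inv_mul_cancel, map_one, one_ap] at h3
    have hc' : ∀ x, x * c⁻¹ = c⁻¹ * x := fun x => ((show Commute x c from hc x).inv_right).eq
    obtain ⟨φ, hφ⟩ := (E.hol ψ hS tame c⁻¹ hc' h1).exists_hom
    refine ⟨φ, ?_⟩
    intro h4
    rw [map_inv, h4, inv_one] at hφ
    exact one_ne_zero (Multiplicative.ofAdd.injective hφ.symm)

end IsEnd

end Pool.Agent.W2helper35.TM
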