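import Mathlib

/-!
# Hölder's theorem for a total preorder on a group which is Archimedean relative to a central element
-/

set_option autoImplicit false

namespace Pool.Agent.W2helper35.TM

open Filter Topology

universe u

/-- a total preorder on the group `C` which is invariant on both sides, with a positive central
element `c` whose powers are cofinal -/
structure Hol {C : Type u} [Group C] (le : C → C → Prop) (c : C) : Prop where
  refl : ∀ x, le x x
  trans : ∀ x y z, le x y → le y z → le x z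
  total : ∀ x y, le x y ∨ le y x
  mulL : ∀ x y z, le x y → le (z * x) (z * y)
  mulR : ∀ x y z, le x y → le (x * z) (y * z)
  cen : ∀ x, x * c = c * x
  pos : ¬ le c 1
  arch : ∀ x, ∃ n : ℤ, le x (c ^ n)

variable {C : Type u} [Group C] {le : C → C → Prop} {c : C}

namespace Hol

variable (h : Hol le c)

include h

lemma mul {x y z w : C} (h1 : le x y) (h2 : le z w) : le (x * z) (y * w) :=
  h.trans _ _ _ (h.mulR _ _ z h1) (h.mulL _ _ y h2)

lemma one_le_pow (n : ℕ) : le 1 (c ^ n) := by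
  induction n with
  | zero => rw [pow_zero]; exact h.refl 1
  | succ n ih =>
    have h1 : le 1 c := (h.total 1 c).resolve_right h.pos
    have := h.mul ih h1
    rwa [one_mul, ← pow_succ] at this

lemma pow_not_le (n : ℕ) : ¬ le (c ^ (n + 1)) 1 := by
  intro h1
  apply h.pos
  have h2 := h.mul (h.one_le_pow n) (h.refl c)
  rw [one_mul, ← pow_succ] at h2
  exact h.trans _ _ _ h2 h1

lemma zpow_le_iff {m n : ℤ} : le (c ^ m) (c ^ n) ↔ m ≤ n := by
  constructor
  · intro h1
    by_contra hc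
    push Not at hc
    obtain ⟨k, hk⟩ : ∃ k : ℕ, m = n + (k + 1 : ℕ) := by
      refine ⟨(m - n - 1).toNat, ?_⟩
      push_cast
      omega
    have h2 := h.mulL _ _ (c ^ (-n)) h1
    rw [← zpow_add, ← zpow_add, hk] at h2
    have e1 : -n + (n + ((k + 1 : ℕ) : ℤ)) = ((k + 1 : ℕ) : ℤ) := by ring
    have e2 : -n + n = 0 := by ring
    rw [e1, e2, zpow_natCast, zpow_zero] at h2
    exact h.pow_not_le k h2
  · intro h1
    obtain ⟨k, hk⟩ : ∃ k : ℕ, n = m + k := ⟨(n - m).toNat, by omega⟩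
    have h2 := h.mulL _ _ (c ^ m) (h.one_le_pow k)
    rw [mul_one, ← zpow_natCast, ← zpow_add, ← hk] at h2
    exact h2

lemma exists_floor (x : C) : ∃ n : ℤ, ∀ m : ℤ, le (c ^ m) x ↔ m ≤ n := by
  obtain ⟨a, ha⟩ := h.arch x
  obtain ⟨b, hb⟩ := h.arch x⁻¹
  have h1 : le (c ^ (-b)) x := by
    have h2 := h.mul (h.refl x) (h.mulR _ _ (c ^ (-b)) hb)
    rw [← zpow_add, add_neg_cancel, zpow_zero, mul_one, mul_inv_cancel_left] at h2
    exact h2
  have h2 : ∀ m : ℤ, le (c ^ m) x → m ≤ a := fun m hm => h.zpow_le_iff.1 (h.trans _ _ _ hm ha)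
  obtain ⟨n, hn1, hn2⟩ := Int.exists_greatest_of_bdd (P := fun m : ℤ => le (c ^ m) x)
    ⟨a, h2⟩ ⟨-b, h1⟩
  refine ⟨n, fun m => ⟨hn2 m, fun hm => h.trans _ _ _ (h.zpow_le_iff.2 hm) hn1⟩⟩

/-- the greatest power of `c` below `x` -/
noncomputable def fl (x : C) : ℤ := (h.exists_floor x).choose

lemma fl_iff (x : C) (m : ℤ) : le (c ^ m) x ↔ m ≤ h.fl x := (h.exists_floor x).choose_spec m

lemma fl_mono {x y : C} (hxy : le x y) : h.fl x ≤ h.fl y :=
  (h.fl_iff y _).1 (h.trans _ _ _ ((h.fl_iff x _).2 le_rfl) hxy)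

lemma fl_c : h.fl c = 1 := by
  apply le_antisymm
  · have h1 := (h.fl_iff c (h.fl c)).2 le_rfl
    have h2 : le (c ^ h.fl c) (c ^ (1 : ℤ)) := by rwa [zpow_one]
    exact h.zpow_le_iff.1 h2
  · rw [← h.fl_iff, zpow_one]
    exact h.refl c

lemma fl_pow_c (n : ℕ) : h.fl (c ^ n) = n := by
  apply le_antisymm
  · have h1 := (h.fl_iff (c ^ n) (h.fl (c ^ n))).2 le_rfl
    rw [← zpow_natCast] at h1
    have := h.zpow_le_iff.1 h1
    rwa [zpow_natCast] at this
  · rw [← h.fl_iff, zpow_natCast]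
    exact h.refl _

lemma zcen (x : C) (m : ℤ) : x * c ^ m = c ^ m * x :=
  ((show Commute x c from h.cen x).zpow_right m).eq

lemma fl_mul_ge (x y : C) : h.fl x + h.fl y ≤ h.fl (x * y) := by
  rw [← h.fl_iff, zpow_add]
  exact h.mul ((h.fl_iff x _).2 le_rfl) ((h.fl_iff y _).2 le_rfl)

lemma lt_fl (x : C) : le x (c ^ (h.fl x + 1)) := by
  rcases h.total x (c ^ (h.fl x + 1)) with h1 | h1
  · exact h1
  · have := (h.fl_iff x _).1 h1
    omega

lemma fl_mul_le (x y : C) : h.fl (x * y) ≤ h.fl x + h.fl y + 1 := by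
  by_contra hc
  push Not at hc
  have h1 : le (c ^ (h.fl x + h.fl y + 2)) (x * y) := (h.fl_iff _ _).2 (by omega)
  have h2 := h.trans _ _ _ h1 (h.mulR _ _ y (h.lt_fl x))
  have h3 := h.mulL _ _ (c ^ (-(h.fl x + 1))) h2
  rw [← zpow_add, ← mul_assoc, ← zpow_add, neg_add_cancel, zpow_zero, one_mul] at h3
  have h4 := (h.fl_iff y _).1 h3
  omega

lemma pow_mono {x y : C} (hxy : le x y) (k : ℕ) : le (x ^ k) (y ^ k) := by
  induction k with
  | zero => rw [pow_zero, pow_zero]; exact h.refl 1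
  | succ k ih =>
    rw [pow_succ, pow_succ]
    exact h.mul ih hxy

lemma pow_mul_le {x y : C} (hxy : le (x * y) (y * x)) (k : ℕ) :
    le (x ^ k * y ^ k) ((x * y) ^ k) ∧ le ((y * x) ^ k) (y ^ k * x ^ k) := by
  have hk := fun k => h.pow_mono hxy k
  induction k with
  | zero =>
    simp only [pow_zero, mul_one]
    exact ⟨h.refl 1, h.refl 1⟩
  | succ k ih =>
    constructor
    · have e1 : x ^ (k + 1) * y ^ (k + 1) = x * ((x ^ k * y ^ k) * y) := by
        rw [pow_succ' x, pow_succ y]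
        group
      have e2 : (x * y) ^ (k + 1) = x * ((y * x) ^ k * y) := by
        have h1 : ∀ k : ℕ, (x * y) ^ k * x = x * (y * x) ^ k := by
          intro k
          induction k with
          | zero => simp
          | succ k ih => rw [pow_succ', mul_assoc, ih, pow_succ']; simp only [mul_assoc]
        rw [pow_succ, ← mul_assoc, h1 k]
        group
      rw [e1, e2]
      exact h.mulL _ _ x (h.mulR _ _ y (h.trans _ _ _ ih.1 (hk k)))
    · have e1 : y ^ (k + 1) * x ^ (k + 1) = y * ((y ^ k * x ^ k) * x) := by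
        rw [pow_succ' y, pow_succ x]
        group
      have e2 : (y * x) ^ (k + 1) = y * ((x * y) ^ k * x) := by
        have h1 : ∀ k : ℕ, (y * x) ^ k * y = y * (x * y) ^ k := by
          intro k
          induction k with
          | zero => simp
          | succ k ih => rw [pow_succ', mul_assoc, ih, pow_succ']; simp only [mul_assoc]
        rw [pow_succ, ← mul_assoc, h1 k]
        group
      rw [e1, e2]
      exact h.mulL _ _ y (h.mulR _ _ x (h.trans _ _ _ (hk k) ih.2))

/-- the floor is additive on the powers of `x` and `y`, up to one -/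
lemma fl_pow_mul (x y : C) (k : ℕ) :
    h.fl (x ^ k) + h.fl (y ^ k) ≤ h.fl ((x * y) ^ k) ∧
      h.fl ((x * y) ^ k) ≤ h.fl (x ^ k) + h.fl (y ^ k) + 1 := by
  rcases h.total (x * y) (y * x) with h1 | h1
  · obtain ⟨h2, h3⟩ := h.pow_mul_le h1 k
    have h4 := h.fl_mono h2
    have h5 := h.fl_mono (h.trans _ _ _ (h.pow_mono h1 k) h3)
    have h6 := h.fl_mul_ge (x ^ k) (y ^ k)
    have h7 := h.fl_mul_le (y ^ k) (x ^ k)
    constructor <;> omega
  · obtain ⟨h2, h3⟩ := h.pow_mul_le h1 k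
    have h4 := h.fl_mono (h.trans _ _ _ h2 (h.pow_mono h1 k))
    have h5 := h.fl_mono h3
    have h6 := h.fl_mul_ge (y ^ k) (x ^ k)
    have h7 := h.fl_mul_le (x ^ k) (y ^ k)
    constructor <;> omega

lemma exists_lim (x : C) :
    ∃ t : ℝ, Tendsto (fun k : ℕ => (h.fl (x ^ k) : ℝ) / k) atTop (𝓝 t) := by
  have hs : Subadditive (fun k : ℕ => (h.fl (x ^ k) : ℝ) + 1) := by
    intro m n
    have h1 := h.fl_mul_le (x ^ m) (x ^ n)
    rw [← pow_add] at h1
    have h2 : (h.fl (x ^ (m + n)) : ℝ) ≤ h.fl (x ^ m) + h.fl (x ^ n) + 1 := by exact_mod_cast h1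
    show (h.fl (x ^ (m + n)) : ℝ) + 1 ≤ (h.fl (x ^ m) : ℝ) + 1 + ((h.fl (x ^ n) : ℝ) + 1)
    linarith
  have hlow : ∀ k : ℕ, (k : ℤ) * h.fl x ≤ h.fl (x ^ k) := by
    intro k
    induction k with
    | zero =>
      rw [pow_zero, Nat.cast_zero, zero_mul, ← h.fl_iff, zpow_zero]
      exact h.refl 1
    | succ k ih =>
      rw [pow_succ]
      have h1 := h.fl_mul_ge (x ^ k) x
      push_cast
      linarith
  have hb : BddBelow (Set.range fun n : ℕ => ((h.fl (x ^ n) : ℝ) + 1) / n) := by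
    refine ⟨min 0 (h.fl x : ℝ), ?_⟩
    rintro _ ⟨n, rfl⟩
    rcases Nat.eq_zero_or_pos n with hn | hn
    · subst hn
      simp only [Nat.cast_zero, div_zero]
      exact min_le_left _ _
    · refine le_trans (min_le_right _ _) ?_
      have hn' : (0 : ℝ) < n := by exact_mod_cast hn
      rw [le_div_iff₀ hn']
      have h1 : ((n : ℤ) * h.fl x : ℝ) ≤ h.fl (x ^ n) := by exact_mod_cast hlow n
      push_cast at h1
      linarith
  refine ⟨hs.lim, ?_⟩
  have h1 := hs.tendsto_lim hb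
  have h2 : Tendsto (fun k : ℕ => (1 : ℝ) / k) atTop (𝓝 0) := tendsto_one_div_atTop_nhds_zero_nat
  have h3 := h1.sub h2
  rw [sub_zero] at h3
  refine h3.congr ?_
  intro k
  ring

/-- the relative translation number -/
noncomputable def tn (x : C) : ℝ := (h.exists_lim x).choose

lemma tn_tendsto (x : C) : Tendsto (fun k : ℕ => (h.fl (x ^ k) : ℝ) / k) atTop (𝓝 (h.tn x)) :=
  (h.exists_lim x).choose_spec

lemma tn_c : h.tn c = 1 := by
  apply tendsto_nhds_unique (h.tn_tendsto c)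
  apply tendsto_const_nhds.congr'
  filter_upwards [eventually_gt_atTop 0] with k hk
  rw [h.fl_pow_c]
  have hk' : (k : ℝ) ≠ 0 := by exact_mod_cast hk.ne'
  push_cast
  rw [div_self hk']

lemma tn_mul (x y : C) : h.tn (x * y) = h.tn x + h.tn y := by
  apply tendsto_nhds_unique (h.tn_tendsto (x * y))
  have h1 := (h.tn_tendsto x).add (h.tn_tendsto y)
  have h2 : Tendsto (fun k : ℕ => (1 : ℝ) / k) atTop (𝓝 0) := tendsto_one_div_atTop_nhds_zero_nat
  have h3 : Tendsto (fun k : ℕ => (h.fl (x ^ k) : ℝ) / k + (h.fl (y ^ k) : ℝ) / k + 1 / k) atTop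
      (𝓝 (h.tn x + h.tn y)) := by
    have := h1.add h2
    rwa [add_zero] at this
  refine tendsto_of_tendsto_of_tendsto_of_le_of_le h1 h3 ?_ ?_
  · intro k
    show (h.fl (x ^ k) : ℝ) / k + (h.fl (y ^ k) : ℝ) / k ≤ (h.fl ((x * y) ^ k) : ℝ) / k
    rw [← add_div]
    apply div_le_div_of_nonneg_right _ (Nat.cast_nonneg k)
    exact_mod_cast (h.fl_pow_mul x y k).1
  · intro k
    show (h.fl ((x * y) ^ k) : ℝ) / k ≤ (h.fl (x ^ k) : ℝ) / k + (h.fl (y ^ k) : ℝ) / k + 1 / k
    rw [← add_div, ← add_div]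
    apply div_le_div_of_nonneg_right _ (Nat.cast_nonneg k)
    exact_mod_cast (h.fl_pow_mul x y k).2

/-- **Hölder.** There is a homomorphism to the real numbers with value `1` at `c`. -/
theorem exists_hom : ∃ φ : C →* Multiplicative ℝ, φ c = Multiplicative.ofAdd 1 := by
  have h1 : h.tn 1 = 0 := by
    have := h.tn_mul 1 1
    rw [mul_one] at this
    linarith
  exact ⟨{ toFun := fun x => Multiplicative.ofAdd (h.tn x)
           map_one' := by rw [h1]; rfl
           map_mul' := fun x y => by rw [h.tn_mul]; rfl },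
    congrArg Multiplicative.ofAdd h.tn_c⟩

end Hol

end Pool.Agent.W2helper35.TM
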